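import Pool.Agent.W523.LV.Stmts2
import Pool.Agent.H394R3.ET.Mach2

/-!
# LV-MACH: the fixed point with boundary masses
-/

set_option autoImplicit false

open Finset MeasureTheory

namespace Pool.Agent.W699.LV

open Pool.Agent.H96R3.BC Pool.Agent.H336R4.BC
open Pool.Agent.H394R3.ET (cN mass_of cN_mass W3 W3_nonneg W3_le WW3 Mass KC Sj)
open Pool.Agent.W523.LV

/-- the source -/
noncomputable def Sr2 (Q j₀ : ℕ) (s : ℕ → ℝ) (v : ℝ) : ℝ := ∑' i : ℕ, Sj2 Q j₀ s (j₀ + i) v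

/-- the identity for the cell contributions -/
lemma Bf_eq1 {Q j₀ : ℕ} (hK : TaskKer1) {C : ℝ} {a0 : ℕ → ℝ} {w : ℕ → ℝ → ℝ} (hw : Wts Q j₀ C a0 w)
    {s x : ℕ → ℝ} (hs : ∀ n, s n ≠ 0 → n.Prime) {f : ℝ → ℝ} (hf : Continuous f) {j : ℕ} (hQ : 1 ≤ Q) (hj1 : 1 ≤ j₀) (hj : j₀ ≤ j)
    (hx : ∀ p ∈ CC Q j, p.Prime → x p = XL Q j₀ a0 w (cN (fun p => s p + x p)) f j p) (v : ℝ) :
    Bf Q j₀ (fun p => s p + x p) f j v = Sj Q j₀ s j v + BL Q j₀ a0 w (cN (fun p => s p + x p)) f j v := by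
  classical
  set y : ℕ → ℝ := fun p => s p + x p with hy
  set a := UU j₀ j with ha
  set b := UU j₀ (j + 1) with hb
  set K : ℝ → ℝ := fun u => KK (4 * Q + 4) u v with hKdef
  have hKc : Continuous K := KK_cont_left hK (by omega) v
  set R : ℕ → ℝ := fun p => (∫ u in a..b, f u * w p u) - ∑ n ∈ NB Q a0 j, cN y n * (vv Q j₀ n) ^ 2 * w p (vv Q j₀ n) with hR
  have hI : ∫ u in a..b, f u * EE Q j₀ w j u v = (∫ u in a..b, f u * K u) -
      ∑ p ∈ CC Q j, (∫ u in a..b, f u * w p u) * K (vv Q j₀ p) := by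
    have e1 : ∀ u, f u * EE Q j₀ w j u v = f u * K u - ∑ p ∈ CC Q j, (f u * w p u) * K (vv Q j₀ p) := by
      intro u
      unfold EE
      rw [mul_sub, mul_sum]
      congr 1
      apply sum_congr rfl
      intro p _
      ring
    simp_rw [e1]
    rw [intervalIntegral.integral_sub, intervalIntegral.integral_finsetSum]
    · congr 1
      apply sum_congr rfl
      intro p _
      rw [intervalIntegral.integral_mul_const]
    · intro p _
      exact Continuous.intervalIntegrable ((hf.mul (hw.cont p)).mul continuous_const) _ _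
    · exact Continuous.intervalIntegrable (hf.mul hKc) _ _
    · exact Continuous.intervalIntegrable (continuous_finsetSum _ fun p _ => (hf.mul (hw.cont p)).mul continuous_const) _ _
  have hS : ∑ n ∈ NB Q a0 j, cN y n * (vv Q j₀ n) ^ 2 * EE Q j₀ w j (vv Q j₀ n) v =
      ∑ n ∈ NB Q a0 j, cN y n * (vv Q j₀ n) ^ 2 * K (vv Q j₀ n) -
      ∑ p ∈ CC Q j, (∑ n ∈ NB Q a0 j, cN y n * (vv Q j₀ n) ^ 2 * w p (vv Q j₀ n)) * K (vv Q j₀ p) := by
    simp_rw [sum_mul]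
    rw [sum_comm, ← sum_sub_distrib]
    apply sum_congr rfl
    intro n _
    unfold EE
    rw [mul_sub, mul_sum]
    congr 1
    apply sum_congr rfl
    intro p _
    ring
  have hterm : ∀ n ∈ CC Q j, cf y n * (vv Q j₀ n) ^ 2 * K (vv Q j₀ n) =
      cN y n * (vv Q j₀ n) ^ 2 * K (vv Q j₀ n) + (s n * (vv Q j₀ n) ^ 2 * K (vv Q j₀ n) + R n * K (vv Q j₀ n)) := by
    intro n hn
    have hn0 : vv Q j₀ n ≠ 0 := by
      have h1 := (Pool.Agent.H96R3.BC.vv_mem (j₀ := j₀) hQ hn).1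
      have h2 := Pool.Agent.H96R3.BC.UU_pos hj1 hj
      linarith
    by_cases hp : n.Prime
    · have e1 : cN y n = 0 := if_pos hp
      have e2 : x n * (vv Q j₀ n) ^ 2 = R n := by
        rw [hx n hn hp]
        unfold XL
        rw [div_mul_cancel₀ _ (pow_ne_zero 2 hn0)]
      rw [e1, cf_prime y hp, ← e2]
      show (s n + x n) * _ * _ = _
      ring
    · have e1 : cN y n = cf y n := if_neg hp
      have e2 : s n = 0 := by
        by_contra h
        exact hp (hs n h)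
      have hw0 : ∀ u, w n u = 0 := by
        intro u
        by_contra h
        exact hp (hw.supp n u h).1
      have e3 : R n = 0 := by
        rw [hR]
        simp [hw0]
      rw [e1, e2, e3]
      ring
  have hNB : ∑ n ∈ CC Q j, cN y n * (vv Q j₀ n) ^ 2 * K (vv Q j₀ n) =
      ∑ n ∈ NB Q a0 j, cN y n * (vv Q j₀ n) ^ 2 * K (vv Q j₀ n) := by
    symm
    apply Finset.sum_subset (NB_sub _ _ _)
    intro n hn hn2
    have hp : n.Prime := by
      by_contra h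
      apply hn2
      unfold NB
      exact Finset.mem_filter.2 ⟨hn, fun h2 => h h2.1⟩
    have e1 : cN y n = 0 := if_pos hp
    rw [e1]
    ring
  have hmain : ∑ n ∈ CC Q j, cf y n * (vv Q j₀ n) ^ 2 * KK (4 * Q + 4) (vv Q j₀ n) v =
      ∑ n ∈ NB Q a0 j, cN y n * (vv Q j₀ n) ^ 2 * K (vv Q j₀ n) + (Sj Q j₀ s j v + ∑ p ∈ CC Q j, R p * K (vv Q j₀ p)) := by
    have e0 : ∑ n ∈ CC Q j, cf y n * (vv Q j₀ n) ^ 2 * KK (4 * Q + 4) (vv Q j₀ n) v =
        ∑ n ∈ CC Q j, cf y n * (vv Q j₀ n) ^ 2 * K (vv Q j₀ n) := rfl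
    rw [e0, Finset.sum_congr rfl hterm, Finset.sum_add_distrib, Finset.sum_add_distrib, hNB]
    rfl
  unfold Bf BL
  rw [hI, hS, hmain]
  have e3 : ∑ p ∈ CC Q j, R p * K (vv Q j₀ p) = ∑ p ∈ CC Q j, (∫ u in a..b, f u * w p u) * K (vv Q j₀ p) -
      ∑ p ∈ CC Q j, (∑ n ∈ NB Q a0 j, cN y n * (vv Q j₀ n) ^ 2 * w p (vv Q j₀ n)) * K (vv Q j₀ p) := by
    rw [← sum_sub_distrib]
    apply sum_congr rfl
    intro p _
    rw [hR]
    ring
  rw [e3]
  show _ - (∫ u in a..b, f u * K u) = _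
  ring


lemma Bf2_eq {Q j₀ : ℕ} (hK : TaskKer1) {C : ℝ} {a0 : ℕ → ℝ} {w : ℕ → ℝ → ℝ} (hw : Wts Q j₀ C a0 w)
    {s x : ℕ → ℝ} (hs : ∀ n, s n ≠ 0 → n.Prime) {f : ℝ → ℝ} (hf : Continuous f) {j : ℕ} (hQ : 1 ≤ Q) (hj1 : 1 ≤ j₀)
    (hj : j₀ ≤ j)
    (hx : ∀ p ∈ CC Q j, p.Prime → x p = XL Q j₀ a0 w (cN (fun p => s p + x p)) f j p) (v : ℝ) :
    Bf2 Q j₀ s (fun p => s p + x p) f j v = Sj2 Q j₀ s j v + BL Q j₀ a0 w (cN (fun p => s p + x p)) f j v := by
  have h := Bf_eq1 hK hw hs hf hQ hj1 hj hx v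
  unfold Bf2 Sj2
  rw [h]
  unfold Sj
  ring

/-- the nonlinear map -/
noncomputable def Ph4 (Q j₀ : ℕ) (a0 : ℕ → ℝ) (w : ℕ → ℝ → ℝ) (s : ℕ → ℝ) (g : ℕ ⊕ ℝ → ℝ) (i : ℕ ⊕ ℝ) : ℝ :=
  match i with
  | Sum.inl p => if p.Prime ∧ a0 p = 0 ∧ j₀ ^ (2 * Q) < p then
      XL Q j₀ a0 w (cN (fun q => s q + g (Sum.inl q))) (fun u => g (Sum.inr u)) (jc Q j₀ p) p else 0
  | Sum.inr v => (vv Q j₀ 1) ^ 2 * KK (4 * Q + 4) (vv Q j₀ 1) (max v 0) + Sr2 Q j₀ s (max v 0) +
      FL Q j₀ a0 w (cN (fun q => s q + g (Sum.inl q))) (fun u => g (Sum.inr u)) (max v 0)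

theorem fix4 (hS2 : TaskSrc2) (hK1 : TaskKer1) {Q j₀ : ℕ} (hQ : 2 ≤ Q) (hj4 : 3 ≤ j₀) {C sB : ℝ} (hM : Mass Q j₀ sB)
    (hsrc : ((Summable (qb Q j₀) ∧ ∑' i, qb Q j₀ i ≤ (j₀ : ℝ) ^ Q / 8) ∧ (Summable (qa Q j₀) ∧ ∑' i, qa Q j₀ i ≤ (j₀ : ℝ) ^ Q / 8)) ∧
    (∀ v : ℝ, 0 ≤ v → |(vv Q j₀ 1) ^ 2 * KK (4 * Q + 4) (vv Q j₀ 1) v| ≤ (j₀ : ℝ) ^ Q / 4 * NN Q v))
    {a0 : ℕ → ℝ} {w : ℕ → ℝ → ℝ} (hw : Wts Q j₀ C a0 w)
    (hB : ∀ (c : ℕ → ℝ) (f : ℝ → ℝ) (D : ℝ), 0 ≤ D → Continuous f →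
      (∀ j, j₀ ≤ j → ∑ n ∈ NB Q a0 j, |c n| ≤ D * (sB * (CC Q j).card / (Real.log j) ^ 3)) →
      (∀ v : ℝ, 0 ≤ v → |f v| ≤ D * ((j₀ : ℝ) ^ Q * NN Q v)) →
      (∀ j, j₀ ≤ j → ∀ p ∈ CC Q j, p.Prime → |XL Q j₀ a0 w c f j p| ≤ D / 2 * (1 / 2 / (Real.log p) ^ 2)) ∧
      (∀ v : ℝ, 0 ≤ v → |FL Q j₀ a0 w c f v| ≤ D / 2 * ((j₀ : ℝ) ^ Q * NN Q v)) ∧
      (Continuous fun v : ℝ => FL Q j₀ a0 w c f (max v 0)) ∧
      (∃ M : ℕ → ℝ, Summable M ∧ ∀ (i : ℕ) (v : ℝ), 0 ≤ v → |BL Q j₀ a0 w c f (j₀ + i) v| ≤ M i * v ^ (8 * Q + 7)))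
    {s : ℕ → ℝ} (hs : Frc2 Q j₀ s) : ∃ (x : ℕ → ℝ) (f : ℝ → ℝ), Out2 Q j₀ w s x f := by
  set κ : ℝ := (j₀ : ℝ) ^ Q with hκdef
  have hκ : 0 < κ := by positivity
  obtain ⟨⟨⟨hqb, hqb2⟩, ⟨hqa, hqa2⟩⟩, hA1⟩ := hsrc
  have hQp : 1 ≤ Q := by omega
  have hs0 : ∀ n, n ≤ j₀ ^ (2 * Q) → s n = 0 := by
    intro n hn
    by_contra h
    have := (hs.supp n h).2
    omega
  obtain ⟨hsm, hrest⟩ := hS2 Q j₀ s hQp hj4 hs
  obtain ⟨hsum, hbdS, hcontS⟩ := hrest κ hκ.le hqa hqb hqa2 hqb2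
  have hSr : ∀ v : ℝ, 0 ≤ v → |Sr2 Q j₀ s v| ≤ κ / 8 * NN Q v := fun v hv =>
    hbdS v hv
  -- facts on coefficients
  have hy : ∀ g : ℕ ⊕ ℝ → ℝ, (∀ i, |g i| ≤ WW3 Q j₀ a0 i) → ∀ n : ℕ, |s n + g (Sum.inl n)| ≤ 1 / (Real.log n) ^ 2 := by
    intro g hg n
    have h1 := hs.bd n
    have h2 := (hg (Sum.inl n)).trans (W3_le Q j₀ a0 n)
    refine (abs_add_le _ _).trans ((add_le_add h1 h2).trans (le_of_eq ?_))
    rw [← add_div]; norm_num
  have hy0 : ∀ g : ℕ ⊕ ℝ → ℝ, (∀ i, |g i| ≤ WW3 Q j₀ a0 i) → ∀ n : ℕ, n ≤ j₀ ^ (2 * Q) → s n + g (Sum.inl n) = 0 := by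
    intro g hg n hn
    have h2 : |g (Sum.inl n)| ≤ W3 Q j₀ a0 n := hg (Sum.inl n)
    unfold W3 at h2
    rw [if_neg (by omega)] at h2
    rw [hs0 n hn, abs_nonpos_iff.1 h2, add_zero]
  -- facts in the ball
  have ball : ∀ g : ℕ ⊕ ℝ → ℝ, (Continuous fun v => g (Sum.inr v)) → (∀ i, |g i| ≤ WW3 Q j₀ a0 i) →
      (∀ j, j₀ ≤ j → ∀ p ∈ CC Q j, p.Prime →
        |XL Q j₀ a0 w (cN (fun q => s q + g (Sum.inl q))) (fun u => g (Sum.inr u)) j p| ≤ 1 / 2 * (1 / 2 / (Real.log p) ^ 2)) ∧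
      (∀ v : ℝ, 0 ≤ v → |FL Q j₀ a0 w (cN (fun q => s q + g (Sum.inl q))) (fun u => g (Sum.inr u)) v| ≤ 1 / 2 * (κ * NN Q v)) ∧
      (Continuous fun v : ℝ => FL Q j₀ a0 w (cN (fun q => s q + g (Sum.inl q))) (fun u => g (Sum.inr u)) (max v 0)) ∧
      (∃ M : ℕ → ℝ, Summable M ∧ ∀ (i : ℕ) (v : ℝ), 0 ≤ v →
        |BL Q j₀ a0 w (cN (fun q => s q + g (Sum.inl q))) (fun u => g (Sum.inr u)) (j₀ + i) v| ≤ M i * v ^ (8 * Q + 7)) := by
    intro g hgc hg
    refine hB (cN (fun q => s q + g (Sum.inl q))) (fun u => g (Sum.inr u)) 1 zero_le_one hgc ?_ ?_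
    · intro j hj
      rw [one_mul]
      exact (cN_mass hM (D := 1) zero_le_one (hy g hg) (hy g hg) (hy0 g hg) (hy0 g hg)
        (fun n => by rw [sub_self, abs_zero]; positivity) hj).2
    · intro v hv
      rw [one_mul]
      have := hg (Sum.inr v)
      simp only [WW3, max_eq_left hv] at this
      exact this
  have diff : ∀ g g' : ℕ ⊕ ℝ → ℝ, (Continuous fun v => g (Sum.inr v)) → (Continuous fun v => g' (Sum.inr v)) →
      (∀ i, |g i| ≤ WW3 Q j₀ a0 i) → (∀ i, |g' i| ≤ WW3 Q j₀ a0 i) → ∀ D : ℝ, 0 ≤ D →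
      (∀ i, |g i - g' i| ≤ D * WW3 Q j₀ a0 i) →
      (∀ j, j₀ ≤ j → ∀ p ∈ CC Q j, p.Prime →
        |XL Q j₀ a0 w (fun n => cN (fun q => s q + g (Sum.inl q)) n - cN (fun q => s q + g' (Sum.inl q)) n)
          (fun u => g (Sum.inr u) - g' (Sum.inr u)) j p| ≤ D / 2 * (1 / 2 / (Real.log p) ^ 2)) ∧
      (∀ v : ℝ, 0 ≤ v → |FL Q j₀ a0 w (fun n => cN (fun q => s q + g (Sum.inl q)) n - cN (fun q => s q + g' (Sum.inl q)) n)
          (fun u => g (Sum.inr u) - g' (Sum.inr u)) v| ≤ D / 2 * (κ * NN Q v)) := by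
    intro g g' hgc hgc' hg hg' D hD hd
    have h := hB (fun n => cN (fun q => s q + g (Sum.inl q)) n - cN (fun q => s q + g' (Sum.inl q)) n)
      (fun u => g (Sum.inr u) - g' (Sum.inr u)) D hD (hgc.sub hgc') ?_ ?_
    · exact ⟨h.1, h.2.1⟩
    · intro j hj
      refine (cN_mass hM hD (hy g hg) (hy g' hg') (hy0 g hg) (hy0 g' hg') (fun n => ?_) hj).1
      have h1 := (hd (Sum.inl n)).trans (mul_le_mul_of_nonneg_left (W3_le Q j₀ a0 n) hD)
      show |s n + g (Sum.inl n) - (s n + g' (Sum.inl n))| ≤ _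
      rw [add_sub_add_left_eq_sub]
      exact h1
    · intro v hv
      have := hd (Sum.inr v)
      simp only [WW3, max_eq_left hv] at this
      exact this
  have sumBL : ∀ g : ℕ ⊕ ℝ → ℝ, (Continuous fun v => g (Sum.inr v)) → (∀ i, |g i| ≤ WW3 Q j₀ a0 i) → ∀ v : ℝ, 0 ≤ v →
      Summable fun i : ℕ => BL Q j₀ a0 w (cN (fun q => s q + g (Sum.inl q))) (fun u => g (Sum.inr u)) (j₀ + i) v := by
    intro g hgc hg v hv
    obtain ⟨M, hMs, hMb⟩ := (ball g hgc hg).2.2.2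
    exact Summable.of_norm_bounded (hMs.mul_right (v ^ (8 * Q + 7))) (fun i => by rw [Real.norm_eq_abs]; exact hMb i v hv)
  -- Picard
  obtain ⟨g, hgC, hgW, hgfix⟩ := picard (WW3 Q j₀ a0) (fun i => by
      cases i with
      | inl p => exact W3_nonneg _ _ _ _
      | inr v => exact mul_nonneg hκ.le (NN_nonneg _ (le_max_right _ _)))
    {g | Continuous fun v => g (Sum.inr v)} (by
      intro g l hg hgl
      show Continuous fun v => l (Sum.inr v)
      have htl : TendstoLocallyUniformly (fun n v => g n (Sum.inr v)) (fun v => l (Sum.inr v)) Filter.atTop := by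
        rw [Metric.tendstoLocallyUniformly_iff]
        intro ε hε v₀
        refine ⟨Metric.ball v₀ 1, Metric.ball_mem_nhds _ one_pos, ?_⟩
        set B : ℝ := κ * (2 + |v₀|) ^ (4 * Q + 3) with hBd
        have hB0 : 0 ≤ B := by positivity
        have ht : Filter.Tendsto (fun n : ℕ => 2 * (1 / 2 : ℝ) ^ n * B) Filter.atTop (nhds 0) := by
          have := ((tendsto_pow_atTop_nhds_zero_of_lt_one (r := (1/2:ℝ)) (by norm_num) (by norm_num)).const_mul 2).mul_const B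
          simpa using this
        filter_upwards [ht.eventually (gt_mem_nhds hε)] with n hn v hv
        rw [Metric.mem_ball, Real.dist_eq] at hv
        rw [dist_comm, Real.dist_eq]
        refine lt_of_le_of_lt ((hgl n (Sum.inr v)).trans ?_) hn
        apply mul_le_mul_of_nonneg_left _ (by positivity)
        show κ * NN Q (max v 0) ≤ B
        apply mul_le_mul_of_nonneg_left _ hκ.le
        refine (NN_le Q (le_max_right _ _)).trans (pow_le_pow_left₀ (by positivity) ?_ _)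
        have h1 : max v 0 ≤ |v| := max_le (le_abs_self _) (abs_nonneg _)
        have h2 : |v| ≤ |v₀| + 1 := by
          have := abs_sub_abs_le_abs_sub v v₀
          linarith
        linarith
      exact htl.continuous (Filter.Frequently.of_forall fun n => hg n))
    (Ph4 Q j₀ a0 w s) continuous_const
    (by
      intro g hg hgW
      show Continuous fun v => Ph4 Q j₀ a0 w s g (Sum.inr v)
      have h := (ball g hg hgW).2.2.1
      refine Continuous.add (Continuous.add ?_ ?_) h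
      · exact continuous_const.mul ((KK_cont_right hK1 (by omega) _).comp (continuous_id.max continuous_const))
      · exact hcontS)
    (by
      intro g hg hgW i
      have h := ball g hg hgW
      cases i with
      | inl p =>
        show |if _ then _ else _| ≤ W3 Q j₀ a0 p
        unfold W3
        split_ifs with hp
        · obtain ⟨hj, hpc⟩ := jc_spec hQp hp.2.2
          refine (h.1 _ hj p hpc hp.1).trans ?_
          have : 0 ≤ 1 / 2 / (Real.log p) ^ 2 := by positivity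
          linarith
        · simp
      | inr v =>
        show |_ + _ + _| ≤ κ * NN Q (max v 0)
        have h1 := hA1 (max v 0) (le_max_right _ _)
        have h2 := h.2.1 (max v 0) (le_max_right _ _)
        have h5 := hSr (max v 0) (le_max_right _ _)
        have h3 : 0 ≤ κ * NN Q (max v 0) := mul_nonneg hκ.le (NN_nonneg _ (le_max_right _ _))
        refine (abs_add_le _ _).trans ((add_le_add (abs_add_le _ _) le_rfl).trans ?_)
        have h4 : κ / 4 * NN Q (max v 0) = 1 / 4 * (κ * NN Q (max v 0)) := by ring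
        have h6 : κ / 8 * NN Q (max v 0) = 1 / 8 * (κ * NN Q (max v 0)) := by ring
        rw [h4] at h1
        rw [h6] at h5
        linarith)
    (by
      intro g hg g' hg' hgW hgW' D hD hd i
      have h := diff g g' hg hg' hgW hgW' D hD hd
      cases i with
      | inl p =>
        show |(if _ then _ else _) - (if _ then _ else _)| ≤ D / 2 * W3 Q j₀ a0 p
        unfold W3
        split_ifs with hp
        · obtain ⟨hj, hpc⟩ := jc_spec hQp hp.2.2
          rw [← XL_sub hw hg hg']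
          exact h.1 _ hj p hpc hp.1
        · simp
      | inr v =>
        have hv : (0:ℝ) ≤ max v 0 := le_max_right _ _
        show |(_ + _ + _) - (_ + _ + _)| ≤ D / 2 * (κ * NN Q (max v 0))
        rw [add_sub_add_left_eq_sub, ← FL_sub hK1 hw hg hg' _ (sumBL g hg hgW _ hv) (sumBL g' hg' hgW' _ hv)]
        exact h.2 (max v 0) hv)
  have hgC' : Continuous fun v => g (Sum.inr v) := hgC
  have hb := ball g hgC' hgW
  set x : ℕ → ℝ := fun q => g (Sum.inl q) with hx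
  set f : ℝ → ℝ := fun u => g (Sum.inr u) with hf
  have hxW : ∀ p, |x p| ≤ W3 Q j₀ a0 p := fun p => hgW (Sum.inl p)
  have hfW : ∀ v : ℝ, 0 ≤ v → |f v| ≤ κ * NN Q v := by
    intro v hv
    have h1 := hgW (Sum.inr v)
    simp only [WW3, max_eq_left hv] at h1
    exact h1
  -- the response formula
  have hxr : ∀ j, j₀ ≤ j → ∀ p ∈ CC Q j, p.Prime → x p = XL Q j₀ a0 w (cN (fun p => s p + x p)) f j p := by
    intro j hj p hp hpp
    have hpj : j₀ ^ (2 * Q) < p := by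
      rw [mem_CC] at hp
      exact lt_of_le_of_lt (Nat.pow_le_pow_left hj _) hp.1
    by_cases hap : a0 p = 0
    · have h1 := hgfix (Sum.inl p)
      have h2 : Ph4 Q j₀ a0 w s g (Sum.inl p) = XL Q j₀ a0 w (cN (fun p => s p + x p)) f (jc Q j₀ p) p := by
        show (if _ then _ else _) = _
        rw [if_pos ⟨hpp, hap, hpj⟩]
      have h3 : jc Q j₀ p = j := CC_unique (jc_spec hQp hpj).2 hp
      rw [h3] at h2
      show g (Sum.inl p) = _
      rw [← h1, h2]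
    · have h1 : x p = 0 := by
        have h2 := hxW p
        unfold W3 at h2
        rw [if_neg (fun h => hap h.2.1)] at h2
        exact abs_nonpos_iff.1 h2
      have hw0 : ∀ u, w p u = 0 := by
        intro u
        by_contra h
        exact hap (hw.supp p u h).2.1
      rw [h1]
      unfold XL
      simp [hw0]
  have hBf : ∀ j, j₀ ≤ j → ∀ v, Bf2 Q j₀ s (fun p => s p + x p) f j v =
      Sj2 Q j₀ s j v + BL Q j₀ a0 w (cN (fun p => s p + x p)) f j v := fun j hj v =>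
    Bf2_eq hK1 hw (fun n hn => (hs.supp n hn).1) hgC' hQp (by omega) hj (hxr j hj) v
  have hlog : ∀ n : ℕ, j₀ ^ (2 * Q) < n → 1 ≤ Real.log n := by
    intro n hn
    have h1 : (3:ℝ) ≤ n := by
      have : 3 ≤ j₀ ^ (2 * Q) := hj4.trans (Nat.le_self_pow (by omega) _)
      exact_mod_cast (this.trans hn.le)
    rw [Real.le_log_iff_exp_le (by linarith)]
    have := Real.exp_one_lt_d9
    linarith
  refine ⟨x, f, ?_⟩
  refine
    { xsupp := ?_
      xbd := ?_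
      sol := ?_
      fbd := hfW
      resp := ?_ }
  · intro n hn
    by_contra h
    have h2 := hxW n
    unfold W3 at h2
    rw [if_neg (fun h3 => h ⟨h3.1, h3.2.2⟩)] at h2
    exact hn (abs_nonpos_iff.1 h2)
  · intro n
    exact (hxW n).trans (W3_le _ _ _ _)
  · refine
      { small := ?_
        low := ?_
        cont := hgC'
        bd := ?_
        sumb := ?_
        eq := ?_ }
    · intro p _
      by_cases hp : j₀ ^ (2 * Q) < p
      · refine (hy g hgW p).trans ?_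
        have h2 := hlog p hp
        rw [div_le_one (by positivity)]
        nlinarith
      · show |s p + g (Sum.inl p)| ≤ 1
        rw [hy0 g hgW p (by omega)]
        simp
    · intro p hp
      exact hy0 g hgW p hp
    · exact ⟨κ, fun v hv => (hfW v hv).trans (mul_le_mul_of_nonneg_left (NN_le Q hv) hκ.le)⟩
    · obtain ⟨M, hMs, hMb⟩ := hb.2.2.2
      refine ⟨fun i => qa Q j₀ i + M i, hqa.add hMs, fun i v hv => ?_⟩
      rw [hBf (j₀ + i) (by omega) v, add_mul]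
      exact (abs_add_le _ _).trans (add_le_add (hsm i v hv) (hMb i v hv))
    · intro v hv
      have h1 := hgfix (Sum.inr v)
      have h2 : Ph4 Q j₀ a0 w s g (Sum.inr v) = (vv Q j₀ 1) ^ 2 * KK (4 * Q + 4) (vv Q j₀ 1) (max v 0) +
        Sr2 Q j₀ s (max v 0) + FL Q j₀ a0 w (cN (fun p => s p + x p)) f (max v 0) := rfl
      rw [max_eq_left hv] at h2
      show g (Sum.inr v) = _
      rw [← h1, h2]
      unfold FL Sr2
      have h3 : ∀ i : ℕ, Bf2 Q j₀ s (fun p => s p + x p) f (j₀ + i) v =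
          Sj2 Q j₀ s (j₀ + i) v + BL Q j₀ a0 w (cN (fun p => s p + x p)) f (j₀ + i) v := fun i => hBf (j₀ + i) (by omega) v
      simp_rw [h3]
      rw [(hsum v hv).tsum_add (sumBL g hgC' hgW v hv)]
      ring
  · intro j hj p hp hpp
    rw [hxr j hj p hp hpp]
    unfold XL
    congr 2
    have e1 : NB Q a0 j ⊇ KC Q j := by
      intro n hn
      unfold KC at hn
      unfold NB
      rw [Finset.mem_filter] at hn ⊢
      exact ⟨hn.1, fun h => hn.2 h.1⟩
    rw [← Finset.sum_subset e1]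
    · apply Finset.sum_congr rfl
      intro n hn
      unfold KC at hn
      have h1 : cN (fun p => s p + x p) n = cf (fun p => s p + x p) n := if_neg (Finset.mem_filter.1 hn).2
      rw [h1]
    · intro n hn hn2
      have h1 : n.Prime := by
        by_contra h
        apply hn2
        unfold KC
        exact Finset.mem_filter.2 ⟨NB_sub _ _ _ hn, h⟩
      have h2 : cN (fun p => s p + x p) n = 0 := if_pos h1
      rw [h2]
      ring

theorem taskMach2 (h : TaskSrc2) : TaskMach2 := by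
  have hHo := Pool.Agent.H469R10.HO.hoheisel
  have hK1 : TaskKer1 := Pool.Agent.H589R3.BC.taskKer1
  have hK2 : TaskKer2 := Pool.Agent.H553R3.BC.taskKer2
  obtain ⟨Q1, hB⟩ := Pool.Agent.H394R3.ET.fixB2 hK1 hK2 Pool.Agent.H124R3.BC.taskDef Pool.Agent.H782R3.BCSum.taskSum
  obtain ⟨Q2, hLag⟩ := Pool.Agent.H96R3.BC.Lag568.taskLag Pool.Agent.H195R3.BC.lagA hHo
  obtain ⟨Q3, hM⟩ := mass_all Pool.Agent.H312F.BC.taskG1 Pool.Agent.H828R3.BC.taskSmo Pool.Agent.H811R3.BCNS.taskNS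
    Pool.Agent.H929R3.BCSM.taskSm
  obtain ⟨C₁, hC₁, hbase⟩ := Pool.Agent.H318R3.BCBase.taskBase hHo
  refine ⟨max (max Q1 Q2) (max Q3 2), fun Q hQ => ?_⟩
  have hQ1 : Q1 ≤ Q := ((le_max_left _ _).trans (le_max_left _ _)).trans hQ
  have hQ2 : Q2 ≤ Q := ((le_max_right _ _).trans (le_max_left _ _)).trans hQ
  have hQ3 : Q3 ≤ Q := ((le_max_left _ _).trans (le_max_right _ _)).trans hQ
  have hQ4 : 2 ≤ Q := ((le_max_right _ _).trans (le_max_right _ _)).trans hQ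
  obtain ⟨C, hC, JL, hLag⟩ := hLag Q hQ2
  obtain ⟨sB, hsB, JB, hB⟩ := hB Q hQ1 C hC
  refine ⟨C, hC, fun s' hs' => ?_⟩
  obtain ⟨JM, hM⟩ := hM Q hQ3 (min s' sB) (lt_min hs' hsB)
  refine ⟨max (max JL JB) (max JM 3), fun j₀ hj₀ => ?_⟩
  have hj1 : JL ≤ j₀ := ((le_max_left _ _).trans (le_max_left _ _)).trans hj₀
  have hj2 : JB ≤ j₀ := ((le_max_right _ _).trans (le_max_left _ _)).trans hj₀
  have hj3 : JM ≤ j₀ := ((le_max_left _ _).trans (le_max_right _ _)).trans hj₀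
  have hj4 : 3 ≤ j₀ := ((le_max_right _ _).trans (le_max_right _ _)).trans hj₀
  obtain ⟨X, P0, a0, hX, hBase⟩ := hbase (j₀ ^ (2 * Q))
  obtain ⟨w, hw⟩ := hLag j₀ hj1 C₁ X P0 a0 hBase hX
  obtain ⟨hq, hA1, hB⟩ := hB j₀ hj2
  have hMass : Mass Q j₀ (min s' sB) := mass_of hBase (by omega) hj4 (hM j₀ hj3 C₁ X P0 a0 hBase hX)
  have hmono : ∀ t : ℝ, min s' sB ≤ t → Mass Q j₀ t := by
    intro t ht j hj T hT hT2
    refine (hMass j hj T hT hT2).trans ?_
    have : (0:ℝ) ≤ (Real.log j) ^ 3 := pow_nonneg (Real.log_natCast_nonneg _) _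
    gcongr
  refine ⟨hmono s' (min_le_left _ _), a0, w, hw, fun s hs => ?_⟩
  exact fix4 h hK1 hQ4 hj4 (hmono sB (min_le_right _ _)) ⟨hq, hA1⟩ hw (hB a0 w hw) hs

end Pool.Agent.W699.LV
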